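import Mathlib
import Pool.Agent.H7.Fd1

set_option autoImplicit false

namespace Pool.Agent.Results.MP_cc2bbb_co.Upper
open Finset Filter Topology

/-- `D` is a dominating set of `G`. -/
def Dom {W : Type} (G : SimpleGraph W) (D : Set W) : Prop :=
  ∀ v, v ∈ D ∨ ∃ u ∈ D, G.Adj v u

/-- `G` has a dominating `(a:b)`-colouring. -/
def Col {W : Type} (G : SimpleGraph W) (a b : ℕ) : Prop :=
  ∃ φ : W → Finset (Fin a), (∀ v, (φ v).card = b) ∧ ∀ i, Dom G {v | i ∈ φ v}

/-- fractional domatic number -/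
noncomputable def fdom {W : Type} (G : SimpleGraph W) : ℝ :=
  sSup {x | ∃ a b : ℕ, 0 < b ∧ b ≤ a ∧ Col G a b ∧ x = (a : ℝ) / b}

/-- minimum degree exactly two -/
def MinDeg2 {W : Type} (G : SimpleGraph W) : Prop :=
  (∀ v, 2 ≤ (G.neighborSet v).ncard) ∧ ∃ v, (G.neighborSet v).ncard = 2

/-- infimum of `fdom` over finite graphs of minimum degree two and girth at least `g` -/
noncomputable def cls (g : ℕ) : ℝ :=
  sInf {x | ∃ (W : Type) (_ : Fintype W) (G : SimpleGraph W),
    MinDeg2 G ∧ (g : ℕ∞) ≤ G.egirth ∧ x = fdom G}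

open H7.Fd Pool.Agent.H84.GirCol

variable {V : Type} [DecidableEq V]

def ok (U : Finset V) (E : Finset (V × V)) (σ : V × V → Bool) : V ⊕ (V × V) × Bool → Prop
  | .inl v => v ∈ U
  | .inr (e, b) => e ∈ E ∧ (σ e = true → b = false)

def G1 (U : Finset V) (E : Finset (V × V)) (σ : V × V → Bool) : SimpleGraph {w // ok U E σ w} :=
  (G0 E σ).comap Subtype.val

theorem girth1 (U : Finset V) (E : Finset (V × V)) (σ : V × V → Bool) (L : ℕ)
    (hG : Gir (E : Set (V × V)) L) : (L : ℕ∞) ≤ (G1 U E σ).egirth := by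
  rw [SimpleGraph.le_egirth]
  intro a w hw
  have := girth0 E σ L hG (w.map (SimpleGraph.Hom.comap Subtype.val (G0 E σ)))
    (hw.map Subtype.val_injective)
  rw [SimpleGraph.Walk.length_map] at this
  exact_mod_cast this

theorem nb_inr (U : Finset V) (E : Finset (V × V)) (σ : V × V → Bool)
    (hE : ∀ e ∈ E, e.1 ≠ e.2) (hU : ∀ e ∈ E, e.1 ∈ U ∧ e.2 ∈ U) (e : V × V) (b : Bool)
    (h : ok U E σ (.inr (e, b))) : ((G1 U E σ).neighborSet ⟨_, h⟩).ncard = 2 := by
  obtain ⟨he, hb⟩ := h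
  rw [Set.ncard_eq_two]
  rcases Bool.eq_false_or_eq_true (σ e) with hs | hs
  swap
  · have o1 : ok U E σ (.inl (if b then e.2 else e.1)) := by
      cases b
      exacts [(hU e he).1, (hU e he).2]
    have o2 : ok U E σ (.inr (e, !b)) := ⟨he, by simp [hs]⟩
    refine ⟨⟨_, o1⟩, ⟨_, o2⟩, by simp, ?_⟩
    ext ⟨y, hy⟩
    rcases y with v | ⟨e', b'⟩
    · cases b <;> simp [G1, G0, A, he, hs]
    · cases b <;> cases b' <;> simp [G1, G0, A, he, hs, eq_comm]
  · have := hb hs
    subst this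
    refine ⟨⟨.inl e.1, (hU e he).1⟩, ⟨.inl e.2, (hU e he).2⟩, by simpa using hE e he, ?_⟩
    ext ⟨y, hy⟩
    rcases y with v | ⟨e', b'⟩
    · simp [G1, G0, A, he, hs]
    · simp [G1, G0, A, he, hs]

theorem nb_inl [Fintype V] (U : Finset V) (E : Finset (V × V)) (σ : V × V → Bool) (v : V)
    (h : ok U E σ (.inl v)) (hd : 2 ≤ dg E v) :
    2 ≤ ((G1 U E σ).neighborSet ⟨_, h⟩).ncard := by
  obtain ⟨e1, h1, e2, h2, hne⟩ := Finset.one_lt_card.1 hd
  have key : ∀ e ∈ E.filter (fun e => e.1 = v ∨ e.2 = v), ∃ b, ∃ o : ok U E σ (.inr (e, b)),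
      (G1 U E σ).Adj ⟨_, h⟩ ⟨_, o⟩ := by
    intro e he
    rw [mem_filter] at he
    obtain ⟨he, rfl | rfl⟩ := he
    · exact ⟨false, ⟨he, fun _ => rfl⟩, he, fun _ => rfl, Or.inl ⟨rfl, rfl⟩⟩
    · exact ⟨!σ e, ⟨he, fun a => by simp [a]⟩, he, fun a => by simp [a], Or.inr ⟨rfl, rfl⟩⟩
  obtain ⟨b1, o1, a1⟩ := key e1 h1
  obtain ⟨b2, o2, a2⟩ := key e2 h2
  haveI : Finite {w // ok U E σ w} := inferInstance
  exact (Set.one_lt_ncard (Set.toFinite _)).2 ⟨⟨_, o1⟩, a1, ⟨_, o2⟩, a2, by simp [hne]⟩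

theorem count (U : Finset V) (E : Finset (V × V)) (σ : V × V → Bool)
    (hU : ∀ e ∈ E, e.1 ∈ U ∧ e.2 ∈ U) (Δ : ℝ)
    (h1 : ∀ S ∈ U.powerset,
      -Δ ≤ ∑ e ∈ E, (if e.1 ∈ S ∧ e.2 ∈ S then (1 : ℝ) else 0) * (if σ e then 1 else -1))
    (h2 : ∑ e ∈ E, (if σ e then (1 : ℝ) else -1) ≤ Δ) (a b : ℕ) (hc : Col (G1 U E σ) a b) :
    (a : ℝ) * (E.card - Δ) ≤ b * (5 / 2 * E.card + Δ / 2) := by
  classical
  obtain ⟨φ, hφ, hD⟩ := hc
  let t : Fin a → V ⊕ (V × V) × Bool → ℝ := fun i w =>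
    if ∃ o : ok U E σ w, i ∈ φ ⟨w, o⟩ then 1 else 0
  have t0 : ∀ i w, 0 ≤ t i w := fun i w => by simp only [t]; split_ifs <;> norm_num
  have t1 : ∀ i w (o : ok U E σ w), i ∈ φ ⟨w, o⟩ → t i w = 1 := fun i w o h => if_pos ⟨o, h⟩
  have ts : ∀ w, ok U E σ w → ∑ i, t i w = b := by
    intro w o
    rw [← hφ ⟨w, o⟩, card_eq_sum_ones, Nat.cast_sum, ← sum_subset (subset_univ (φ ⟨w, o⟩))]
    · exact sum_congr rfl fun i hi => by rw [t1 i w o hi]; simp
    · intro i _ hi
      exact if_neg fun ⟨_, h⟩ => hi h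
  let c : Fin a → V × V → ℝ := fun i e =>
    if σ e then t i (.inr (e, false)) + t i (.inl e.1) + t i (.inl e.2)
    else t i (.inr (e, false)) + t i (.inr (e, true))
  have cs : ∀ e ∈ E, ∑ i, c i e = b * (5 / 2 + (if σ e then (1 : ℝ) else -1) / 2) := by
    intro e he
    cases hs : σ e
    · simp only [c, hs, Bool.false_eq_true, if_false, sum_add_distrib]
      rw [ts (.inr (e, false)) ⟨he, fun _ => rfl⟩, ts (.inr (e, true)) ⟨he, by simp [hs]⟩]; ring
    · simp only [c, hs, if_true, sum_add_distrib]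
      rw [ts (.inr (e, false)) ⟨he, fun _ => rfl⟩, ts (.inl e.1) (hU e he).1,
        ts (.inl e.2) (hU e he).2]; ring
  have cl : ∀ i, (E.card : ℝ) - Δ ≤ ∑ e ∈ E, c i e := by
    intro i
    let S := U.filter fun v => ∃ o : ok U E σ (.inl v), i ∈ φ ⟨_, o⟩
    have hS := h1 S (mem_powerset.2 (filter_subset _ _))
    have tS : ∀ v ∈ U, t i (.inl v) = if v ∈ S then 1 else 0 := by
      intro v hv
      simp only [t, S, mem_filter, hv, true_and]
    have : ∀ e ∈ E, 1 + (if e.1 ∈ S ∧ e.2 ∈ S then (1 : ℝ) else 0) * (if σ e then 1 else -1)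
        ≤ c i e := by
      intro e he
      have u1 := (hU e he).1
      have u2 := (hU e he).2
      have p1 := t0 i (.inr (e, false))
      have p2 := t0 i (.inr (e, true))
      have p3 := t0 i (.inl e.1)
      have p4 := t0 i (.inl e.2)
      cases hs : σ e
      · simp only [c, hs, Bool.false_eq_true, if_false]
        have dd : ∀ (b : Bool), (if b then e.2 else e.1) ∉ S →
            1 ≤ t i (.inr (e, false)) + t i (.inr (e, true)) := by
          intro b hb
          have o : ok U E σ (.inr (e, b)) := ⟨he, by simp [hs]⟩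
          rcases hD i ⟨_, o⟩ with h | ⟨⟨y, oy⟩, hy, h⟩
          · have := t1 i _ o h
            cases b <;> linarith
          · have := t1 i _ oy hy
            rcases y with v | ⟨e', b'⟩
            · exfalso
              apply hb
              have hv : v = if b then e.2 else e.1 := by
                obtain ⟨-, -, ⟨rfl, rfl⟩ | ⟨h3, rfl⟩⟩ := h
                · rfl
                · simp [h3, hs]
              rw [← hv]
              exact mem_filter.2 ⟨oy, oy, hy⟩
            · obtain ⟨-, -, rfl, -⟩ := h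
              cases b' <;> linarith
        by_cases q1 : e.1 ∈ S
        · by_cases q2 : e.2 ∈ S
          · simp only [q1, q2, and_self, if_true]; linarith
          · have := dd true q2
            simp only [q2, and_false, if_false]; linarith
        · have := dd false q1
          simp only [q1, false_and, if_false]; linarith
      · simp only [c, hs, if_true]
        split_ifs with q
        · rw [tS _ u1, tS _ u2, if_pos q.1, if_pos q.2]; linarith
        · have o : ok U E σ (.inr (e, false)) := ⟨he, fun _ => rfl⟩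
          rcases hD i ⟨_, o⟩ with h | ⟨⟨y, oy⟩, hy, h⟩
          · have := t1 i _ o h
            linarith
          · have := t1 i _ oy hy
            rcases y with v | ⟨e', b'⟩
            · obtain ⟨-, -, ⟨-, rfl⟩ | ⟨-, rfl⟩⟩ := h <;> linarith
            · obtain ⟨-, h3, -⟩ := h
              rw [hs] at h3
              exact absurd h3 (by simp)
    have := sum_le_sum this
    rw [sum_add_distrib] at this
    simp only [sum_const, nsmul_eq_mul, mul_one] at this
    linarith
  have a1 : (a : ℝ) * (E.card - Δ) ≤ ∑ i, ∑ e ∈ E, c i e := by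
    have := sum_le_sum (s := univ) fun i _ => cl i
    rwa [sum_const, card_univ, Fintype.card_fin, nsmul_eq_mul] at this
  rw [sum_comm, sum_congr rfl cs, ← mul_sum, sum_add_distrib, sum_const, nsmul_eq_mul,
    ← sum_div] at a1
  refine a1.trans (mul_le_mul_of_nonneg_left (by linarith) (Nat.cast_nonneg _))

theorem main (g : ℕ) (ε : ℝ) (hε : 0 < ε) : ∃ (W : Type) (_ : Fintype W) (G : SimpleGraph W),
    MinDeg2 G ∧ (g : ℕ∞) ≤ G.egirth ∧ fdom G ≤ 5 / 2 + ε := by
  classical
  obtain ⟨δ, hδ, hδ1, hδ2⟩ : ∃ δ : ℝ, 0 < δ ∧ δ ≤ 1 / 2 ∧ δ ≤ ε / 6 :=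
    ⟨min (1 / 2) (ε / 6), by positivity, min_le_left _ _, min_le_right _ _⟩
  obtain ⟨K, hK⟩ := exists_nat_ge (8 / δ ^ 2 + 1)
  have hK1 : (1 : ℝ) ≤ K := le_trans (by simp; positivity) hK
  have hK1' : 1 ≤ K := by exact_mod_cast hK1
  obtain ⟨n, U, E, hne, hG, hU, hd⟩ := exists_dense K g
  have hE : ∀ e ∈ E, e.1 ≠ e.2 := fun e he h => hG e he (h ▸ Wk.refl _ _)
  have hm : (K : ℝ) * U.card ≤ 2 * E.card := by
    have a := card_nsmul_le_sum U (dg E) K fun v hv => (Nat.le_succ K).trans (hd v hv)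
    have b := (sum_le_sum_of_subset (f := dg E) (subset_univ U)).trans (sum_dg E)
    rw [smul_eq_mul, mul_comm] at a
    exact_mod_cast a.trans b
  have hU1 : (1 : ℝ) ≤ U.card := by exact_mod_cast card_pos.2 hne
  obtain ⟨σ, hσ⟩ := disc (ι := Fin n × Fin n) (insertNone U.powerset)
    (fun k e => match k with
      | none => if e ∈ E then 1 else 0
      | some S => if e ∈ E then -(if e.1 ∈ S ∧ e.2 ∈ S then 1 else 0) else 0) E.card δ hδ (by
      intro k _
      have : (E.card : ℝ) = ∑ e : Fin n × Fin n, if e ∈ E then 1 else 0 := by simp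
      rw [this]
      refine sum_le_sum fun e _ => ?_
      rcases k with _ | S <;> simp only <;> split_ifs <;> norm_num)
  have hlog : Real.log (insertNone U.powerset).card / δ + δ * E.card / 2 ≤ δ * E.card := by
    have a : Real.log (insertNone U.powerset).card ≤ 2 * U.card := by
      rw [Real.log_le_iff_le_exp (by rw [card_insertNone]; positivity), card_insertNone,
        card_powerset]
      have b : (2 : ℝ) ^ U.card ≤ Real.exp U.card := by
        rw [← mul_one (U.card : ℝ), Real.exp_nat_mul]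
        gcongr
        have := Real.add_one_le_exp 1
        linarith
      have c := Real.add_one_le_exp (U.card : ℝ)
      rw [two_mul, Real.exp_add]
      push_cast
      nlinarith
    have b : 8 ≤ K * δ ^ 2 := by
      have : 8 / δ ^ 2 ≤ K := by linarith
      rwa [div_le_iff₀ (by positivity)] at this
    have c : Real.log (insertNone U.powerset).card / δ ≤ δ * E.card / 2 := by
      rw [div_le_iff₀ hδ]
      have : 8 * (U.card : ℝ) ≤ δ ^ 2 * (2 * E.card) := by
        calc 8 * (U.card : ℝ) ≤ K * δ ^ 2 * U.card := by gcongr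
          _ = δ ^ 2 * (K * U.card) := by ring
          _ ≤ _ := by gcongr
      nlinarith
    linarith
  refine ⟨{w // ok U E σ w}, inferInstance, G1 U E σ, ⟨?_, ?_⟩, girth1 U E σ g hG, ?_⟩
  · rintro ⟨v | ⟨e, b⟩, h⟩
    · exact nb_inl U E σ v h (le_trans (by omega) (hd v h))
    · exact (nb_inr U E σ hE hU e b h).ge
  · obtain ⟨v, hv⟩ := hne
    obtain ⟨e, he⟩ := card_pos.1 (lt_of_lt_of_le (Nat.succ_pos K) (hd v hv))
    exact ⟨_, nb_inr U E σ hE hU e false ⟨(mem_filter.1 he).1, fun _ => rfl⟩⟩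
  · refine Real.sSup_le ?_ (by positivity)
    rintro x ⟨a, b, hb, -, hc, rfl⟩
    have := count U E σ hU (δ * E.card) ?_ ?_ a b hc
    · have hb' : (0 : ℝ) < b := by exact_mod_cast hb
      have hEp : (0 : ℝ) < E.card := by nlinarith
      have h3 : (a : ℝ) * (1 - δ) ≤ b * (5 / 2 + δ / 2) := by
        refine le_of_mul_le_mul_right ?_ hEp
        linarith
      rw [div_le_iff₀ hb']
      refine le_of_mul_le_mul_right (h3.trans ?_) (show 0 < 1 - δ by linarith)
      rw [mul_comm (5 / 2 + ε), mul_assoc]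
      gcongr
      nlinarith
    · intro S hS
      have := (hσ (some S) (by simpa using hS)).trans hlog
      simp only [ite_mul, zero_mul, sum_ite_mem, univ_inter, neg_mul, sum_neg_distrib] at this ⊢
      linarith
    · have := (hσ none (by simp)).trans hlog
      simpa only [ite_mul, zero_mul, sum_ite_mem, univ_inter, one_mul] using this

theorem result :
    (∀ (g : ℕ) (ε : ℝ), 0 < ε → ∃ (W : Type) (_ : Fintype W) (G : SimpleGraph W),
      MinDeg2 G ∧ (g : ℕ∞) ≤ G.egirth ∧ fdom G ≤ 5 / 2 + ε) ∧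
    (∀ g : ℕ, cls g ≤ 5 / 2) ∧
    ∀ L : ℝ, Tendsto cls atTop (𝓝 L) → L ≤ 5 / 2 := by
  have h : ∀ g : ℕ, cls g ≤ 5 / 2 := by
    intro g
    refine le_of_forall_pos_le_add fun ε hε => ?_
    obtain ⟨W, i, G, h1, h2, h3⟩ := main g ε hε
    refine le_trans (csInf_le ⟨0, ?_⟩ ⟨W, i, G, h1, h2, rfl⟩) h3
    rintro x ⟨W, i, G, -, -, rfl⟩
    refine Real.sSup_nonneg ?_
    rintro x ⟨a, b, -, -, -, rfl⟩
    positivity
  exact ⟨main, h, fun L hL => le_of_tendsto' hL h⟩

end Pool.Agent.Results.MP_cc2bbb_co.Upper
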